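import Mathlib
import Pool.Agent.Q237.LT.Uni

/-!
# The local inequalities at all places
-/

set_option autoImplicit false
set_option linter.unusedSectionVars false

namespace Pool.Agent.Q237.LT

open NumberField IsDedekindDomain Finset Pool.Agent.H691R3 Pool.Agent.W223.AK
open Pool.Agent.Y733.LS Pool.Agent.Q237.LS

section Loc

variable {K : Type} [Field K]

theorem wjj (w : AbsoluteValue K ℝ) (a b : K) :
    w (jj a b) = w 6912 * (w a ^ 3 / w (dl a b)) := by
  have e : jj a b = 6912 * a ^ 3 / dl a b := rfl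
  rw [e, map_div₀, map_mul, map_pow]
  ring

theorem wjj_sub (w : AbsoluteValue K ℝ) (a b : K) (hD : dl a b ≠ 0) :
    w (jj a b - 1728) = w 46656 * (w b ^ 2 / w (dl a b)) := by
  have e : jj a b - 1728 = -(46656 * b ^ 2 / dl a b) := by
    have e : jj a b = 6912 * a ^ 3 / dl a b := rfl
    rw [e, div_sub' hD, ← neg_div]
    congr 1
    unfold dl
    ring
  rw [e, map_neg_eq_map, map_div₀, map_mul, map_pow]
  ring

/-- half of the logarithm of the size of `j`, if `j` is large -/
noncomputable def lA (j : K) (w : AbsoluteValue K ℝ) : ℝ := Real.log (max (w j) 1) / 2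

/-- the position of `x` -/
noncomputable def pA (a b x : K) (w : AbsoluteValue K ℝ) : ℝ :=
  ps (lA (jj a b) w) (w (2 * a * x + 3 * b) / w b)

/-- the correction -/
noncomputable def cA (a b x : K) (w : AbsoluteValue K ℝ) : ℝ := corr (lA (jj a b) w) (pA a b x w)

theorem lA_nonneg (j : K) (w : AbsoluteValue K ℝ) : 0 ≤ lA j w :=
  div_nonneg (Real.log_nonneg (le_max_right _ _)) two_pos.le

theorem lA_zero {j : K} {w : AbsoluteValue K ℝ} (h : w j ≤ 1) : lA j w = 0 := by
  unfold lA
  rw [max_eq_right h, Real.log_one, zero_div]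

theorem lA_of {j : K} {w : AbsoluteValue K ℝ} (h : 1 ≤ w j) : lA j w = Real.log (w j) / 2 := by
  unfold lA
  rw [max_eq_left h]

theorem ps_zero (y : ℝ) : ps 0 y = 0 := by
  unfold ps
  rw [neg_zero, Real.exp_zero]
  split_ifs with h
  · rfl
  · push Not at h
    have := Real.log_nonneg h.le
    exact max_eq_left (by linarith)

theorem pA_nonneg (a b x : K) (w : AbsoluteValue K ℝ) : 0 ≤ pA a b x w := by
  unfold pA
  rcases (lA_nonneg (jj a b) w).lt_or_eq with h | h
  · exact ps_nonneg h
  · rw [← h, ps_zero]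

theorem pA_le (a b x : K) (w : AbsoluteValue K ℝ) : pA a b x w ≤ lA (jj a b) w := by
  unfold pA
  rcases (lA_nonneg (jj a b) w).lt_or_eq with h | h
  · exact ps_le h
  · rw [← h, ps_zero]

theorem cA_zero {a b x : K} {w : AbsoluteValue K ℝ} (h : w (jj a b) ≤ 1) : cA a b x w = 0 := by
  unfold cA pA
  rw [lA_zero h, ps_zero, corr_zero]

theorem cA_nonneg (a b x : K) (w : AbsoluteValue K ℝ) : 0 ≤ cA a b x w := by
  rcases (lA_nonneg (jj a b) w).lt_or_eq with h | h
  · exact corr_nonneg h (pA_nonneg _ _ _ _) (pA_le _ _ _ _)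
  · unfold cA pA
    rw [← h, ps_zero, corr_zero]

theorem cA_le (a b x : K) (w : AbsoluteValue K ℝ) : cA a b x w ≤ lA (jj a b) w := by
  rcases (lA_nonneg (jj a b) w).lt_or_eq with h | h
  · exact (corr_le_self h).trans (pA_le _ _ _ _)
  · unfold cA pA
    rw [← h, ps_zero, corr_zero]

/-- the scales at a place where `j` is large -/
structure Scl (w : AbsoluteValue K ℝ) (M : ℝ) (a b : K) : Prop where
  hr1 : w (4 * (a ^ 3 / b ^ 2) + 27) ≤ M ^ 16 * Real.exp (-(2 * lA (jj a b) w))
  hr2 : Real.exp (-(2 * lA (jj a b) w)) ≤ M ^ 16 * w (4 * (a ^ 3 / b ^ 2) + 27)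
  hr3 : M ^ 100 * w (4 * (a ^ 3 / b ^ 2) + 27) ≤ 1
  s1 : sz w a b ≤ M ^ 2 * w (b / a)
  s2 : w (b / a) ≤ M ^ 2 * sz w a b

variable {w : AbsoluteValue K ℝ} {M : ℝ} {a b : K}

theorem Cst.scl [CharZero K] (h : Cst w M) (ha : a ≠ 0) (hb : b ≠ 0) (hD : dl a b ≠ 0)
    (hj : M ^ 120 < w (jj a b)) : Scl w M a b := by
  have hM0 := h.pos
  have hM1 := h.one_le
  have hj1 : 1 ≤ w (jj a b) := (one_le_pow₀ hM1).trans hj.le
  have hj0 : 0 < w (jj a b) := by linarith
  have hexp : Real.exp (-(2 * lA (jj a b) w)) = (w (jj a b))⁻¹ := by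
    rw [lA_of hj1, show -(2 * (Real.log (w (jj a b)) / 2)) = -Real.log (w (jj a b)) by ring,
      Real.exp_neg, Real.exp_log hj0]
  have hd : 0 < w (dl a b) := w.pos hD
  have hb0 : 0 < w b := w.pos hb
  have ha0 : 0 < w a := w.pos ha
  have w1728 : w (1728 : K) ≤ M ^ 3 := by
    have e : (1728 : K) = 12 ^ 3 := by norm_num
    rw [e, map_pow]
    exact pow_le_pow_left₀ (w.nonneg _) (h.ofNat 12 (by norm_num)) 3
  have w46656 : w (46656 : K) ≤ M ^ 3 := by
    have e : (46656 : K) = 36 ^ 3 := by norm_num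
    rw [e, map_pow]
    exact pow_le_pow_left₀ (w.nonneg _) (h.ofNat 36 (by norm_num)) 3
  have w46656' : 1 ≤ M ^ 12 * w (46656 : K) := by
    have := h.low 6 6
    norm_num at this
    exact this
  have w27 : 1 ≤ M ^ 3 * w (27 : K) := by
    have := h.low 0 3
    norm_num at this
    exact this
  set r := 4 * (a ^ 3 / b ^ 2) + 27 with hr
  have hrd : w r * w (jj a b - 1728) = w 46656 := by
    rw [hr, dl_scale hb, wjj_sub w a b hD, map_div₀, map_pow]
    field_simp
  have hr0 : 0 ≤ w r := w.nonneg _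
  have h1728 : M * w (-1728 : K) ≤ w (jj a b) := by
    rw [map_neg_eq_map]
    calc M * w (1728 : K) ≤ M * M ^ 3 := by gcongr
      _ = M ^ 4 := by ring
      _ ≤ M ^ 120 := pow_le_pow_right₀ hM1 (by norm_num)
      _ ≤ _ := hj.le
  have hj2 : w (jj a b) ≤ M * w (jj a b - 1728) := by
    have := h.dom h1728
    rwa [← sub_eq_add_neg] at this
  have hj3 : w (jj a b - 1728) ≤ M * w (jj a b) := by
    apply h.sub le_rfl
    refine le_trans ?_ h1728
    rw [map_neg_eq_map]
    exact le_mul_of_one_le_left (w.nonneg _) hM1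
  have hr1 : w r * w (jj a b) ≤ M ^ 4 := by
    calc w r * w (jj a b) ≤ w r * (M * w (jj a b - 1728)) := by gcongr
      _ = M * (w r * w (jj a b - 1728)) := by ring
      _ = M * w 46656 := by rw [hrd]
      _ ≤ M * M ^ 3 := by gcongr
      _ = _ := by ring
  have hr2 : 1 ≤ M ^ 13 * (w r * w (jj a b)) := by
    calc 1 ≤ M ^ 12 * w (46656 : K) := w46656'
      _ = M ^ 12 * (w r * w (jj a b - 1728)) := by rw [hrd]
      _ ≤ M ^ 12 * (w r * (M * w (jj a b))) := by gcongr
      _ = _ := by ring
  have hr3 : M ^ 116 * w r ≤ 1 := by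
    have h5 : M ^ 120 * w r ≤ M ^ 4 := by
      calc M ^ 120 * w r ≤ w (jj a b) * w r := by gcongr
        _ = w r * w (jj a b) := by ring
        _ ≤ _ := hr1
    apply h.cancel 4
    calc M ^ 4 * (M ^ 116 * w r) = M ^ 120 * w r := by ring
      _ ≤ M ^ 4 := h5
      _ = _ := (mul_one _).symm
  have hr100 : M ^ 100 * w r ≤ 1 := (h.pw (by norm_num) hr0).trans hr3
  have hrM : w r ≤ M := by
    have : w r ≤ M ^ 100 * w r := le_mul_of_one_le_left hr0 (one_le_pow₀ hM1)
    linarith
  -- `t`
  set t := a ^ 3 / b ^ 2 with ht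
  have ht0 : 0 ≤ w t := w.nonneg _
  have ht4 : w t ≤ M ^ 4 * 1 := by
    apply h.half 3
    apply h.half 2
    have e : 2 * (2 * t) = r - 27 := by rw [hr]; ring
    rw [e]
    refine h.subp 1 1 2 zero_le_one ?_ ?_ (by norm_num) (by norm_num)
    · rw [pow_one, mul_one]; exact hrM
    · rw [pow_one, mul_one]; exact h.ofNat 27 (by norm_num)
  have ht5 : 1 ≤ M ^ 5 * w t := by
    have h5 : M * w r ≤ w (-27 : K) := by
      rw [map_neg_eq_map]
      apply h.cancel 3
      calc M ^ 3 * (M * w r) = M ^ 4 * w r := by ring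
        _ ≤ M ^ 100 * w r := h.pw (by norm_num) hr0
        _ ≤ 1 := hr100
        _ ≤ _ := w27
    have h6 := h.dom h5
    have e : -27 + r = 4 * t := by rw [hr]; ring
    rw [e, map_neg_eq_map] at h6
    calc 1 ≤ M ^ 3 * w (27 : K) := w27
      _ ≤ M ^ 3 * (M * w (4 * t)) := by gcongr
      _ ≤ M ^ 3 * (M * (M * w t)) := by
          have := h.mul 4 (by norm_num) t
          gcongr
      _ = _ := by ring
  have hta : w a ^ 3 = w t * w b ^ 2 := by
    rw [ht, map_div₀, map_pow, map_pow]
    field_simp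
  set σ := w (b / a) with hσ
  have hσ0 : 0 < σ := w.pos (div_ne_zero hb ha)
  have hs0 : 0 < sz w a b := sz_pos ha
  have e6 : w b ^ 2 = w t ^ 2 * σ ^ 6 := by
    have h1 : w t ^ 2 = (w a ^ 3) ^ 2 / (w b ^ 2) ^ 2 := by
      rw [hta]
      field_simp
    have h2 : σ ^ 6 = w b ^ 6 / w a ^ 6 := by
      rw [hσ, map_div₀, div_pow]
    rw [h1, h2]
    field_simp
  have s6 : sz w a b ^ 6 = max (w t) 1 * (w t ^ 2 * σ ^ 6) := by
    rw [sz_six, hta, max_mul_of_nonneg _ _ (by positivity), one_mul, ← e6]
  rw [mul_one] at ht4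
  refine ⟨?_, ?_, hr100, ?_, ?_⟩
  · rw [hexp]
    rw [← div_eq_mul_inv, le_div_iff₀ hj0]
    exact hr1.trans (pow_le_pow_right₀ hM1 (by norm_num))
  · rw [hexp, inv_le_iff_one_le_mul₀' hj0]
    refine hr2.trans ?_
    calc M ^ 13 * (w r * w (jj a b)) ≤ M ^ 16 * (w r * w (jj a b)) :=
          h.pw (by norm_num) (by positivity)
      _ = _ := by ring
  · have h7 : sz w a b ^ 6 ≤ (M ^ 2 * σ) ^ 6 := by
      rw [s6]
      have h8 : max (w t) 1 ≤ M ^ 4 := max_le ht4 (one_le_pow₀ hM1)
      calc max (w t) 1 * (w t ^ 2 * σ ^ 6) ≤ M ^ 4 * ((M ^ 4) ^ 2 * σ ^ 6) := by gcongr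
        _ = _ := by ring
    exact le_of_pow_le_pow_left₀ (by norm_num) (by positivity) h7
  · have h7 : σ ^ 6 ≤ (M ^ 2 * sz w a b) ^ 6 := by
      rw [mul_pow, s6]
      have h8 : 1 ≤ max (w t) 1 := le_max_right _ _
      have h9 : 1 ≤ (M ^ 5 * w t) ^ 2 := one_le_pow₀ ht5
      calc σ ^ 6 = 1 * (1 * σ ^ 6) := by ring
        _ ≤ max (w t) 1 * ((M ^ 5 * w t) ^ 2 * σ ^ 6) := by gcongr
        _ = M ^ 10 * (max (w t) 1 * (w t ^ 2 * σ ^ 6)) := by ring
        _ ≤ M ^ 12 * (max (w t) 1 * (w t ^ 2 * σ ^ 6)) := h.pw (by norm_num) (by positivity)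
        _ = _ := by ring
    exact le_of_pow_le_pow_left₀ (by norm_num) (by positivity) h7

theorem FG_ne {x : K} [CharZero K] (hD : dl a b ≠ 0) : pF a b x ≠ 0 ∨ pG a b x ≠ 0 := by
  by_contra hcon
  push Not at hcon
  have h5 := res1 a b x
  rw [hcon.1, hcon.2, mul_zero, mul_zero, sub_zero] at h5
  rcases mul_eq_zero.1 h5.symm with h7 | h7
  · norm_num at h7
  · exact hD h7

/-- **The local inequality with a bounded error.** -/
theorem Cst.loc [CharZero K] (h : Cst w M) (ha : a ≠ 0) (hb : b ≠ 0) (hD : dl a b ≠ 0) (x : K)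
    (hres : w (4 * dl a b) * max (w x) (sz w a b) ^ 4 ≤
      M * sz w a b ^ 6 * max (w (pF a b x)) (sz w a b * w (pG a b x))) :
    (pG a b x ≠ 0 → 4 * (Lam a b x w - cA a b x w) ≤
      Real.log (max (w (pF a b x)) (sz w a b * w (pG a b x))) -
        cA a b (pF a b x / pG a b x) w + 400 * Real.log M) ∧
    4 * (Lam a b x w - cA a b x w) ≤
      Real.log (max (w (pF a b x)) (sz w a b * w (pG a b x))) + 400 * Real.log M := by
  have hM0 := h.pos
  have hM1 := h.one_le
  have hM2 := h.hM
  have hμ : 0 < Real.log M := Real.log_pos (by linarith)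
  set μ := Real.log M with hμdef
  have hd : 0 < w (dl a b) := w.pos hD
  have hs0 : 0 < sz w a b := sz_pos ha
  have hb0 : 0 < w b := w.pos hb
  have ha0 : 0 < w a := w.pos ha
  have hmax0 : 0 < max (w (pF a b x)) (sz w a b * w (pG a b x)) := by
    rcases FG_ne (x := x) hD with h5 | h5
    · exact lt_max_of_lt_left (w.pos h5)
    · exact lt_max_of_lt_right (mul_pos hs0 (w.pos h5))
  rcases le_or_gt (w (jj a b)) (M ^ 120) with hj | hj
  · -- `j` is not large
    have hlA : lA (jj a b) w ≤ 60 * μ := by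
      unfold lA
      have h1 : max (w (jj a b)) 1 ≤ M ^ 120 := max_le hj (one_le_pow₀ hM1)
      have h2 := Real.log_le_log (lt_max_of_lt_right one_pos) h1
      rw [Real.log_pow] at h2
      push_cast at h2
      linarith
    have hc1 := cA_nonneg a b x w
    have hc2 := cA_le a b (pF a b x / pG a b x) w
    have w1728 : w (1728 : K) ≤ M ^ 3 := by
      have e : (1728 : K) = 12 ^ 3 := by norm_num
      rw [e, map_pow]
      exact pow_le_pow_left₀ (w.nonneg _) (h.ofNat 12 (by norm_num)) 3
    have w46656' : 1 ≤ M ^ 12 * w (46656 : K) := by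
      have := h.low 6 6
      norm_num at this
      exact this
    have w6912' : 1 ≤ M ^ 11 * w (6912 : K) := by
      have := h.low 8 3
      norm_num at this
      exact this
    have w4' : 1 ≤ M ^ 2 * w (4 : K) := by
      have := h.low 2 0
      norm_num at this
      exact this
    have e1 : w 6912 * w a ^ 3 = w (jj a b) * w (dl a b) := by
      rw [wjj]
      field_simp
    have e2 : w 46656 * w b ^ 2 = w (jj a b - 1728) * w (dl a b) := by
      rw [wjj_sub w a b hD]
      field_simp
    have hj3 : w (jj a b - 1728) ≤ M ^ 121 := by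
      have := h.sub hj (w1728.trans (pow_le_pow_right₀ hM1 (by norm_num : 3 ≤ 120)))
      calc w (jj a b - 1728) ≤ M * M ^ 120 := this
        _ = _ := by ring
    have a1 : w a ^ 3 ≤ M ^ 133 * w (dl a b) := by
      calc w a ^ 3 = 1 * w a ^ 3 := (one_mul _).symm
        _ ≤ (M ^ 11 * w 6912) * w a ^ 3 := by gcongr
        _ = M ^ 11 * (w 6912 * w a ^ 3) := by ring
        _ = M ^ 11 * (w (jj a b) * w (dl a b)) := by rw [e1]
        _ ≤ M ^ 11 * (M ^ 120 * w (dl a b)) := by gcongr
        _ = M ^ 131 * w (dl a b) := by ring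
        _ ≤ _ := h.pw (by norm_num) hd.le
    have b1 : w b ^ 2 ≤ M ^ 133 * w (dl a b) := by
      calc w b ^ 2 = 1 * w b ^ 2 := (one_mul _).symm
        _ ≤ (M ^ 12 * w 46656) * w b ^ 2 := by gcongr
        _ = M ^ 12 * (w 46656 * w b ^ 2) := by ring
        _ = M ^ 12 * (w (jj a b - 1728) * w (dl a b)) := by rw [e2]
        _ ≤ M ^ 12 * (M ^ 121 * w (dl a b)) := by gcongr
        _ = _ := by ring
    have s6 : sz w a b ^ 6 ≤ M ^ 135 * w (4 * dl a b) := by
      rw [sz_six, map_mul]
      calc max (w a ^ 3) (w b ^ 2) ≤ M ^ 133 * w (dl a b) := max_le a1 b1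
        _ = M ^ 133 * (1 * w (dl a b)) := by ring
        _ ≤ M ^ 133 * ((M ^ 2 * w 4) * w (dl a b)) := by gcongr
        _ = _ := by ring
    have h4D : 0 < w (4 * dl a b) := w.pos (mul_ne_zero (by norm_num) hD)
    have hm4 : max (w x) (sz w a b) ^ 4 ≤
        M ^ 136 * max (w (pF a b x)) (sz w a b * w (pG a b x)) := by
      have h5 : w (4 * dl a b) * max (w x) (sz w a b) ^ 4 ≤
          w (4 * dl a b) * (M ^ 136 * max (w (pF a b x)) (sz w a b * w (pG a b x))) := by
        refine hres.trans ?_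
        calc M * sz w a b ^ 6 * max (w (pF a b x)) (sz w a b * w (pG a b x)) ≤
            M * (M ^ 135 * w (4 * dl a b)) *
              max (w (pF a b x)) (sz w a b * w (pG a b x)) := by gcongr
          _ = _ := by ring
      exact le_of_mul_le_mul_left h5 h4D
    have hmx : 0 < max (w x) (sz w a b) := lt_max_of_lt_right hs0
    have h6 := log_ge hM0 136 (by positivity) hm4
    rw [Real.log_pow] at h6
    push_cast at h6
    unfold Lam
    refine ⟨fun _ => ?_, ?_⟩
    · linarith
    · linarith
  · -- near a cusp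
    obtain ⟨hr1, hr2, hr3, s1, s2⟩ := h.scl ha hb hD hj
    have hj1 : 1 < w (jj a b) := lt_of_le_of_lt (one_le_pow₀ hM1) hj
    have hΛ : 0 < lA (jj a b) w := by
      rw [lA_of hj1.le]
      exact div_pos (Real.log_pos hj1) zero_lt_two
    have hr0 : 0 < w (4 * (a ^ 3 / b ^ 2) + 27) := by
      rw [dl_scale hb]
      exact w.pos (div_ne_zero hD (pow_ne_zero _ hb))
    obtain ⟨u1, u2⟩ := uniN (X := x * a / b) h hΛ hr0 hr1 hr2 hr3
    set σ := w (b / a) with hσ
    have hσ0 : 0 < σ := w.pos (div_ne_zero hb ha)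
    have hY : ∀ z : K, w (2 * (z * a / b) + 3) = w (2 * a * z + 3 * b) / w b := by
      intro z
      have e : 2 * (z * a / b) + 3 = (2 * a * z + 3 * b) / b := by
        field_simp
      rw [e, map_div₀]
    have hX : w x = σ * w (x * a / b) := by
      have e : x = (b / a) * (x * a / b) := by field_simp
      conv_lhs => rw [e]
      rw [map_mul]
    rw [hY] at u1 u2
    set F' := pF (a ^ 3 / b ^ 2) (a ^ 3 / b ^ 2) (x * a / b) with hF'
    set G' := pG (a ^ 3 / b ^ 2) (a ^ 3 / b ^ 2) (x * a / b) with hG'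
    have eF : w (pF a b x) = σ ^ 4 * w F' := by
      rw [pF_scale ha hb, map_mul, map_pow]
    have eG : w (pG a b x) = σ ^ 3 * w G' := by
      rw [pG_scale ha hb, map_mul, map_pow]
    have hFG : F' ≠ 0 ∨ G' ≠ 0 := by
      by_contra hcon
      push Not at hcon
      obtain ⟨c1, c2⟩ := hcon
      rw [eF, eG, c1, c2, map_zero, mul_zero, mul_zero, mul_zero, max_self] at hmax0
      exact lt_irrefl _ hmax0
    have hm2 : 0 < max (w F') (w G') := by
      rcases hFG with h5 | h5
      · exact lt_max_of_lt_left (w.pos h5)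
      · exact lt_max_of_lt_right (w.pos h5)
    have hm1 : 0 < max (w (x * a / b)) 1 := lt_max_of_lt_right one_pos
    have l1 : Lam a b x w ≤ 2 * μ + Real.log σ + Real.log (max (w (x * a / b)) 1) := by
      unfold Lam
      have h5 : max (w x) (sz w a b) ≤ M ^ 2 * σ * max (w (x * a / b)) 1 := by
        apply max_le
        · rw [hX]
          calc σ * w (x * a / b) ≤ 1 * σ * max (w (x * a / b)) 1 := by
                rw [one_mul]
                gcongr
                exact le_max_left _ _
            _ ≤ M ^ 2 * σ * max (w (x * a / b)) 1 := by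
                gcongr
                exact one_le_pow₀ hM1
        · refine s1.trans ?_
          exact le_mul_of_one_le_right (by positivity) (le_max_right _ _)
      have h6 := Real.log_le_log (lt_max_of_lt_right hs0) h5
      rw [Real.log_mul (by positivity) hm1.ne', Real.log_mul (by positivity) hσ0.ne',
        Real.log_pow] at h6
      push_cast at h6
      exact h6
    have l2 : Real.log (max (w F') (w G')) + 4 * Real.log σ ≤
        2 * μ + Real.log (max (w (pF a b x)) (sz w a b * w (pG a b x))) := by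
      have h5 : max (w F') (w G') * σ ^ 4 ≤
          M ^ 2 * max (w (pF a b x)) (sz w a b * w (pG a b x)) := by
        rw [max_mul_of_nonneg _ _ (by positivity)]
        apply max_le
        · calc w F' * σ ^ 4 = w (pF a b x) := by rw [eF]; ring
            _ ≤ M ^ 2 * w (pF a b x) := le_mul_of_one_le_left (w.nonneg _) (one_le_pow₀ hM1)
            _ ≤ _ := mul_le_mul_of_nonneg_left (le_max_left _ _) (by positivity)
        · calc w G' * σ ^ 4 = σ * w (pG a b x) := by rw [eG]; ring
            _ ≤ (M ^ 2 * sz w a b) * w (pG a b x) := by gcongr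
            _ = M ^ 2 * (sz w a b * w (pG a b x)) := by ring
            _ ≤ _ := mul_le_mul_of_nonneg_left (le_max_right _ _) (by positivity)
      have h6 := Real.log_le_log (by positivity) h5
      rw [Real.log_mul hm2.ne' (by positivity), Real.log_mul (by positivity) hmax0.ne',
        Real.log_pow, Real.log_pow] at h6
      push_cast at h6
      linarith
    refine ⟨fun hG => ?_, ?_⟩
    · have hG1 : G' ≠ 0 := pG_ne ha hb hG
      have s3 := u1 hG1
      have e9 : w (2 * (F' / G') + 3) = w (2 * a * (pF a b x / pG a b x) + 3 * b) / w b := by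
        rw [hF', hG', ← quot_scale ha hb, hY]
      rw [e9] at s3
      unfold cA pA
      linarith
    · unfold cA pA
      linarith

/-- **The distance of two points with a bounded error.** -/
theorem Cst.pair [CharZero K] (h : Cst w M) (ha : a ≠ 0) (hb : b ≠ 0) (hD : dl a b ≠ 0) {x x' : K}
    (hx : x ≠ x') :
    Real.log (w (x - x')) ≤ Lam a b x w + Lam a b x' w -
      Real.log (sz w a b) - min (pA a b x w) (pA a b x' w) + 100 * Real.log M := by
  have hM0 := h.pos
  have hM1 := h.one_le
  have hM2 := h.hM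
  have hμ : 0 < Real.log M := Real.log_pos (by linarith)
  have hsub : w (x - x') ≤ M * max (w x) (w x') := h.sub (le_max_left _ _) (le_max_right _ _)
  have hgen := pair_gen (b := b) hM1 ha hx hsub
  set μ := Real.log M with hμdef
  have hs0 : 0 < sz w a b := sz_pos ha
  have hb0 : 0 < w b := w.pos hb
  have ha0 : 0 < w a := w.pos ha
  have hd : 0 < w (x - x') := w.pos (sub_ne_zero.2 hx)
  unfold Lam
  rcases le_or_gt (w (jj a b)) (M ^ 120) with hj | hj
  · have hlA : lA (jj a b) w ≤ 60 * μ := by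
      unfold lA
      have h1 : max (w (jj a b)) 1 ≤ M ^ 120 := max_le hj (one_le_pow₀ hM1)
      have h2 := Real.log_le_log (lt_max_of_lt_right one_pos) h1
      rw [Real.log_pow] at h2
      push_cast at h2
      linarith
    have h1 := (min_le_left (pA a b x w) (pA a b x' w)).trans (pA_le a b x w)
    linarith
  · obtain ⟨hr1, hr2, hr3, s1, s2⟩ := h.scl ha hb hD hj
    have hj1 : 1 < w (jj a b) := lt_of_le_of_lt (one_le_pow₀ hM1) hj
    have hΛ : 0 < lA (jj a b) w := by
      rw [lA_of hj1.le]
      exact div_pos (Real.log_pos hj1) zero_lt_two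
    set c := pA a b x w with hc
    set c' := pA a b x' w with hc'
    rcases (lt_or_ge 0 (min c c')) with hmin | hmin
    · obtain ⟨p1, p2⟩ := lt_min_iff.1 hmin
      have q1 : w (2 * a * x + 3 * b) ≤ w b * Real.exp (-min c c') := by
        have h1 := le_exp_ps (Λ := lA (jj a b) w) (ps_pos_lt hΛ p1).le
        rw [div_le_iff₀ hb0] at h1
        have h2 : Real.exp (-c) ≤ Real.exp (-min c c') :=
          Real.exp_le_exp.2 (neg_le_neg (min_le_left _ _))
        calc w (2 * a * x + 3 * b) ≤ Real.exp (-c) * w b := h1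
          _ ≤ Real.exp (-min c c') * w b := by gcongr
          _ = _ := by ring
      have q2 : w (2 * a * x' + 3 * b) ≤ w b * Real.exp (-min c c') := by
        have h1 := le_exp_ps (Λ := lA (jj a b) w) (ps_pos_lt hΛ p2).le
        rw [div_le_iff₀ hb0] at h1
        have h2 : Real.exp (-c') ≤ Real.exp (-min c c') :=
          Real.exp_le_exp.2 (neg_le_neg (min_le_right _ _))
        calc w (2 * a * x' + 3 * b) ≤ Real.exp (-c') * w b := h1
          _ ≤ Real.exp (-min c c') * w b := by gcongr
          _ = _ := by ring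
      have q3 : w (a * (x - x')) ≤ M ^ 2 * (w b * Real.exp (-min c c')) := by
        apply h.half 1
        have e : 2 * (a * (x - x')) = (2 * a * x + 3 * b) - (2 * a * x' + 3 * b) := by ring
        rw [e, pow_one]
        exact h.sub q1 q2
      have q4 : w (x - x') ≤ M ^ 4 * (sz w a b * Real.exp (-min c c')) := by
        have h1 : w a * w (x - x') ≤ w a * (M ^ 4 * (sz w a b * Real.exp (-min c c'))) := by
          calc w a * w (x - x') = w (a * (x - x')) := (map_mul _ _ _).symm
            _ ≤ M ^ 2 * (w b * Real.exp (-min c c')) := q3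
            _ = M ^ 2 * ((w a * w (b / a)) * Real.exp (-min c c')) := by
                rw [map_div₀]
                field_simp
            _ ≤ M ^ 2 * ((w a * (M ^ 2 * sz w a b)) * Real.exp (-min c c')) := by gcongr
            _ = _ := by ring
        exact le_of_mul_le_mul_left h1 ha0
      have q5 := Real.log_le_log hd q4
      rw [Real.log_mul (by positivity) (by positivity), Real.log_mul hs0.ne' (Real.exp_pos _).ne',
        Real.log_exp, Real.log_pow] at q5
      push_cast at q5
      have q6 : Real.log (sz w a b) ≤ Real.log (max (w x) (sz w a b)) :=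
        Real.log_le_log hs0 (le_max_right _ _)
      have q7 : Real.log (sz w a b) ≤ Real.log (max (w x') (sz w a b)) :=
        Real.log_le_log hs0 (le_max_right _ _)
      linarith
    · linarith

end Loc

section Exact

variable {K : Type} [Field K] [CharZero K] {w : AbsoluteValue K ℝ} {a b : K}

/-- **The exact local inequality at the places which do not divide `6`.** -/
theorem loc_exact (h : Na w) (h2 : w 2 = 1) (h3 : w 3 = 1) (ha : a ≠ 0) (hb : b ≠ 0)
    (hD : dl a b ≠ 0) (x : K) :
    (pG a b x ≠ 0 → 4 * (Lam a b x w - cA a b x w) ≤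
      Real.log (max (w (pF a b x)) (sz w a b * w (pG a b x))) -
        cA a b (pF a b x / pG a b x) w) ∧
    4 * (Lam a b x w - cA a b x w) ≤
      Real.log (max (w (pF a b x)) (sz w a b * w (pG a b x))) := by
  have h6912 : w (6912 : K) = 1 := by
    have : (6912 : K) = 2 ^ 8 * 3 ^ 3 := by norm_num
    rw [this, map_mul, map_pow, map_pow, h2, h3]
    norm_num
  have h46656 : w (46656 : K) = 1 := by
    have : (46656 : K) = 2 ^ 6 * 3 ^ 6 := by norm_num
    rw [this, map_mul, map_pow, map_pow, h2, h3]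
    norm_num
  have h27 : w (27 : K) = 1 := by
    have : (27 : K) = 3 ^ 3 := by norm_num
    rw [this, map_pow, h3]
    norm_num
  have h4 : w (4 : K) = 1 := by
    have : (4 : K) = 2 ^ 2 := by norm_num
    rw [this, map_pow, h2]
    norm_num
  have hd0 : 0 < w (dl a b) := w.pos hD
  have hs0 : 0 < sz w a b := sz_pos ha
  rcases le_or_gt (w (jj a b)) 1 with hj | hj
  · rw [cA_zero hj, cA_zero hj, sub_zero, sub_zero]
    have e1 : w a ^ 3 = w (jj a b) * w (dl a b) := by
      rw [wjj, h6912]
      field_simp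
    have e2 : w b ^ 2 = w (jj a b - 1728) * w (dl a b) := by
      rw [wjj_sub w a b hD, h46656]
      field_simp
    have hj3 : w (jj a b - 1728) ≤ 1 := by
      refine (h.sub _ _).trans (max_le hj ?_)
      exact h.ofNat 1728
    have s6 : sz w a b ^ 6 ≤ w (4 * dl a b) := by
      rw [sz_six, map_mul, h4, one_mul]
      apply max_le
      · rw [e1]; nlinarith
      · rw [e2]; nlinarith
    have hmax0 : 0 ≤ max (w (pF a b x)) (sz w a b * w (pG a b x)) :=
      (w.nonneg _).trans (le_max_left _ _)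
    have hres := res_na (w := w) h (x := x) (sz_pos (b := b) ha) (le_sz_sq w a b)
      (le_sz_cube w a b)
    have h4D : 0 < w (4 * dl a b) := w.pos (mul_ne_zero (by norm_num) hD)
    have hm4 : max (w x) (sz w a b) ^ 4 ≤ max (w (pF a b x)) (sz w a b * w (pG a b x)) := by
      have h5 : w (4 * dl a b) * max (w x) (sz w a b) ^ 4 ≤
          w (4 * dl a b) * max (w (pF a b x)) (sz w a b * w (pG a b x)) :=
        hres.trans (mul_le_mul_of_nonneg_right s6 hmax0)
      exact le_of_mul_le_mul_left h5 h4D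
    have hmx : 0 < max (w x) (sz w a b) := lt_max_of_lt_right hs0
    have h6 := Real.log_le_log (by positivity) hm4
    rw [Real.log_pow] at h6
    push_cast at h6
    unfold Lam
    exact ⟨fun _ => h6, h6⟩
  · have hΛ : 0 < lA (jj a b) w := by
      rw [lA_of hj.le]
      exact div_pos (Real.log_pos hj) two_pos
    have hJ : w (jj a b) * w (dl a b) = w a ^ 3 := by
      rw [wjj, h6912, one_mul, div_mul_cancel₀ _ hd0.ne']
    have e : 27 * b ^ 2 = -(4 * a ^ 3) + dl a b := by unfold dl; ring
    have e1 : w (27 * b ^ 2) = w b ^ 2 := by rw [map_mul, h27, one_mul, map_pow]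
    have e2 : w (-(4 * a ^ 3)) = w a ^ 3 := by
      rw [map_neg_eq_map, map_mul, h4, one_mul, map_pow]
    have e3 : w b ^ 2 = w a ^ 3 := by
      rw [← e1, e, h.eq, e2]
      rw [e2, ← hJ]
      nlinarith
    have hJ0 : 0 < w (jj a b) := by linarith
    have hr : w (dl a b) = Real.exp (-(2 * lA (jj a b) w)) * w b ^ 2 := by
      have e4 : Real.exp (-(2 * lA (jj a b) w)) = (w (jj a b))⁻¹ := by
        rw [lA_of hj.le, show -(2 * (Real.log (w (jj a b)) / 2)) = -Real.log (w (jj a b)) by ring,
          Real.exp_neg, Real.exp_log hJ0]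
      rw [e4, e3, ← hJ]
      field_simp
    obtain ⟨t1, t2⟩ := sharp h h2 h3 ha hb e3.symm hΛ hr x
    have t3 : pG a b x ≠ 0 → 4 * (Lam a b x w - cA a b x w) ≤
        Real.log (max (w (pF a b x)) (sz w a b * w (pG a b x))) -
        cA a b (pF a b x / pG a b x) w := fun hG => t1 hG
    refine ⟨t3, ?_⟩
    by_cases hG : pG a b x = 0
    · exact t2 hG
    · have := t3 hG
      have h5 := cA_nonneg a b (pF a b x / pG a b x) w
      linarith

/-- the distance of two points at the places which do not divide `6` -/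
theorem pair_exact (h : Na w) (h2 : w 2 = 1) (h3 : w 3 = 1) (ha : a ≠ 0) (hb : b ≠ 0)
    (hD : dl a b ≠ 0) {x x' : K} (hx : x ≠ x') :
    Real.log (w (x - x')) ≤ Lam a b x w + Lam a b x' w -
      Real.log (sz w a b) - min (pA a b x w) (pA a b x' w) := by
  have h6912 : w (6912 : K) = 1 := by
    have : (6912 : K) = 2 ^ 8 * 3 ^ 3 := by norm_num
    rw [this, map_mul, map_pow, map_pow, h2, h3]
    norm_num
  have h27 : w (27 : K) = 1 := by
    have : (27 : K) = 3 ^ 3 := by norm_num
    rw [this, map_pow, h3]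
    norm_num
  have h4 : w (4 : K) = 1 := by
    have : (4 : K) = 2 ^ 2 := by norm_num
    rw [this, map_pow, h2]
    norm_num
  have hd0 : 0 < w (dl a b) := w.pos hD
  rcases le_or_gt (w (jj a b)) 1 with hj | hj
  · have h5 := pair_gen (w := w) (b := b) (C := 1) le_rfl ha hx (by
      rw [one_mul]
      exact h.sub x x')
    rw [Real.log_one, add_zero] at h5
    have h6 := pA_le a b x w
    rw [lA_zero hj] at h6
    have h7 := min_le_left (pA a b x w) (pA a b x' w)
    unfold Lam
    linarith
  · have hΛ : 0 < lA (jj a b) w := by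
      rw [lA_of hj.le]
      exact div_pos (Real.log_pos hj) two_pos
    have hJ : w (jj a b) * w (dl a b) = w a ^ 3 := by
      rw [wjj, h6912, one_mul, div_mul_cancel₀ _ hd0.ne']
    have e : 27 * b ^ 2 = -(4 * a ^ 3) + dl a b := by unfold dl; ring
    have e1 : w (27 * b ^ 2) = w b ^ 2 := by rw [map_mul, h27, one_mul, map_pow]
    have e2 : w (-(4 * a ^ 3)) = w a ^ 3 := by
      rw [map_neg_eq_map, map_mul, h4, one_mul, map_pow]
    have e3 : w b ^ 2 = w a ^ 3 := by
      rw [← e1, e, h.eq, e2]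
      rw [e2, ← hJ]
      nlinarith
    exact pair_pole h h2 ha hb e3.symm hΛ hx

end Exact

end Pool.Agent.Q237.LT
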