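import Mathlib
import Pool.Agent.Q237.LT.Loc

/-!
# The corrected height with the corrections at all places
-/

set_option autoImplicit false
set_option linter.unusedSectionVars false

namespace Pool.Agent.Q237.LT

open NumberField IsDedekindDomain Finset Pool.Agent.H691R3 Pool.Agent.W223.AK
open Pool.Agent.TH942 Pool.Agent.TH910.LS Pool.Agent.Y733.LS Pool.Agent.Q237.LS
open WeierstrassCurve Filter Topology

section Glob

variable {K : Type} [Field K] [NumberField K]

/-- the error at a finite place -/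
noncomputable def mu (v : Pr K) : ℝ := -Real.log (fv v 6)

theorem six_pos (v : Pr K) : 0 < fv v (6 : K) := (fv v).pos (by norm_num)

theorem six_le (v : Pr K) : fv v (6 : K) ≤ 1 := (fv_Na v).ofNat 6

theorem mu_nonneg (v : Pr K) : 0 ≤ mu v := by
  unfold mu
  have := Real.log_nonpos (six_pos v).le (six_le v)
  linarith

theorem six_eq (v : Pr K) : fv v (6 : K) = fv v 2 * fv v 3 := by
  rw [← map_mul]
  congr 1
  norm_num

theorem mu_exact {v : Pr K} (h : fv v (6 : K) = 1) : fv v (2 : K) = 1 ∧ fv v (3 : K) = 1 := by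
  have h2 : fv v (2 : K) ≤ 1 := (fv_Na v).ofNat 2
  have h3 : fv v (3 : K) ≤ 1 := (fv_Na v).ofNat 3
  have h2' : 0 ≤ fv v (2 : K) := (fv v).nonneg _
  have h3' : 0 ≤ fv v (3 : K) := (fv v).nonneg _
  rw [six_eq] at h
  constructor
  · nlinarith
  · nlinarith

theorem cst_inf (w : InfinitePlace K) : Cst w.1 1000 := by
  have h := inf_nat w
  refine ⟨by norm_num, ?_, ?_, ?_⟩
  · have : w.1 (2 : K) = 2 := by exact_mod_cast h 2
    rw [this]; norm_num
  · have : w.1 (3 : K) = 3 := by exact_mod_cast h 3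
    rw [this]; norm_num
  · intro n hn
    rw [h n]
    exact_mod_cast hn

theorem cst_fin {v : Pr K} (h : fv v (6 : K) ≠ 1) : Cst (fv v) (fv v 6)⁻¹ := by
  have h0 := six_pos v
  have h1 := six_le v
  have h2 : fv v (2 : K) ≤ 1 := (fv_Na v).ofNat 2
  have h3 : fv v (3 : K) ≤ 1 := (fv_Na v).ofNat 3
  have h2' : 0 < fv v (2 : K) := (fv v).pos (by norm_num)
  have h3' : 0 < fv v (3 : K) := (fv v).pos (by norm_num)
  have hN := Nv_one_lt v
  have hinv : 2 ≤ (fv v (6 : K))⁻¹ := by
    obtain ⟨m, hm⟩ := fv_zpow (K := K) v (x := 6) (by norm_num)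
    have hm0 : m < 0 := by
      by_contra hcon
      push Not at hcon
      have h5 : 1 ≤ fv v (6 : K) := by
        rw [hm]
        exact one_le_zpow₀ hN.le hcon
      exact h (le_antisymm h1 h5)
    rw [hm, ← zpow_neg]
    have h6 : Nv v ≤ Nv v ^ (-m) := by
      calc Nv v = Nv v ^ (1 : ℤ) := (zpow_one _).symm
        _ ≤ _ := zpow_le_zpow_right₀ hN.le (by omega)
    have h7 : (2 : ℝ) ≤ Nv v := by
      unfold Nv
      have h8 : (1 : ℝ) < (Ideal.absNorm v.asIdeal : ℝ) := hN
      exact_mod_cast (by exact_mod_cast h8 : 1 < Ideal.absNorm v.asIdeal)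
    linarith
  have hle1 : 1 ≤ (fv v (6 : K))⁻¹ := by linarith
  refine ⟨hinv, ?_, ?_, ?_⟩
  · rw [inv_mul_eq_div, le_div_iff₀ h0, one_mul, six_eq]
    exact mul_le_of_le_one_right h2'.le h3
  · rw [inv_mul_eq_div, le_div_iff₀ h0, one_mul, six_eq]
    exact mul_le_of_le_one_left h3'.le h2
  · intro n _
    exact ((fv_Na v).nat n).trans hle1

theorem loc_fin {a b : K} (ha : a ≠ 0) (hb : b ≠ 0) (hD : dl a b ≠ 0) (x : K) (v : Pr K) :
    (pG a b x ≠ 0 → 4 * (Lam a b x (fv v) - cA a b x (fv v)) - 400 * mu v ≤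
      Real.log (max (fv v (pF a b x)) (sz (fv v) a b * fv v (pG a b x))) -
        cA a b (pF a b x / pG a b x) (fv v)) ∧
    4 * (Lam a b x (fv v) - cA a b x (fv v)) - 400 * mu v ≤
      Real.log (max (fv v (pF a b x)) (sz (fv v) a b * fv v (pG a b x))) := by
  by_cases h : fv v (6 : K) = 1
  · obtain ⟨h2, h3⟩ := mu_exact h
    have hmu : mu v = 0 := by unfold mu; rw [h, Real.log_one, neg_zero]
    obtain ⟨t1, t2⟩ := loc_exact (fv_Na v) h2 h3 ha hb hD x
    rw [hmu, mul_zero, sub_zero]
    exact ⟨t1, t2⟩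
  · have hc := cst_fin h
    have hres := res_na (w := fv v) (fv_Na v) (x := x) (sz_pos (b := b) ha)
      (le_sz_sq (fv v) a b) (le_sz_cube (fv v) a b)
    have hs0 : 0 < sz (fv v) a b := sz_pos ha
    have hmax0 : 0 ≤ max (fv v (pF a b x)) (sz (fv v) a b * fv v (pG a b x)) :=
      ((fv v).nonneg _).trans (le_max_left _ _)
    have hres' : fv v (4 * dl a b) * max (fv v x) (sz (fv v) a b) ^ 4 ≤
        (fv v 6)⁻¹ * sz (fv v) a b ^ 6 *
          max (fv v (pF a b x)) (sz (fv v) a b * fv v (pG a b x)) := by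
      refine hres.trans ?_
      have h1 := hc.one_le
      have h2 : 0 ≤ sz (fv v) a b ^ 6 := by positivity
      apply mul_le_mul_of_nonneg_right _ hmax0
      exact le_mul_of_one_le_left h2 h1
    obtain ⟨t1, t2⟩ := hc.loc ha hb hD x hres'
    have hmu : Real.log (fv v (6 : K))⁻¹ = mu v := Real.log_inv _
    rw [hmu] at t1 t2
    exact ⟨fun hG => by have := t1 hG; linarith, by linarith⟩

theorem loc_inf {a b : K} (ha : a ≠ 0) (hb : b ≠ 0) (hD : dl a b ≠ 0) (x : K)
    (w : InfinitePlace K) :
    (pG a b x ≠ 0 → 4 * (Lam a b x w.1 - cA a b x w.1) - 400 * Real.log 1000 ≤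
      Real.log (max (w.1 (pF a b x)) (sz w.1 a b * w.1 (pG a b x))) -
        cA a b (pF a b x / pG a b x) w.1) ∧
    4 * (Lam a b x w.1 - cA a b x w.1) - 400 * Real.log 1000 ≤
      Real.log (max (w.1 (pF a b x)) (sz w.1 a b * w.1 (pG a b x))) := by
  have hc := cst_inf w
  have hres := res_arch (w := w.1) (fun n => (inf_nat w n).le) (x := x) (sz_pos (b := b) ha)
    (le_sz_sq w.1 a b) (le_sz_cube w.1 a b)
  obtain ⟨t1, t2⟩ := hc.loc ha hb hD x hres
  exact ⟨fun hG => by have := t1 hG; linarith, by linarith⟩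

theorem pair_fin {a b : K} (ha : a ≠ 0) (hb : b ≠ 0) (hD : dl a b ≠ 0) {x x' : K} (hx : x ≠ x')
    (v : Pr K) :
    Real.log (fv v (x - x')) ≤ Lam a b x (fv v) + Lam a b x' (fv v) -
      Real.log (sz (fv v) a b) - min (pA a b x (fv v)) (pA a b x' (fv v)) + 100 * mu v := by
  by_cases h : fv v (6 : K) = 1
  · obtain ⟨h2, h3⟩ := mu_exact h
    have hmu : mu v = 0 := by unfold mu; rw [h, Real.log_one, neg_zero]
    have := pair_exact (fv_Na v) h2 h3 ha hb hD hx
    rw [hmu]
    linarith
  · have := (cst_fin h).pair ha hb hD hx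
    have hmu : Real.log (fv v (6 : K))⁻¹ = mu v := Real.log_inv _
    rwa [hmu] at this

/-- the constant of the errors -/
noncomputable def c6 : ℝ := Real.log 1000 + Real.log 6

theorem c6_pos : 0 < c6 := add_pos (Real.log_pos (by norm_num)) (Real.log_pos (by norm_num))

theorem Fs_mu : (Function.support fun v : Pr K => mu v).Finite := by
  have h := Fs_log (K := K) (z := 6) (by norm_num)
  refine h.subset ?_
  intro v hv
  rw [Function.mem_support] at hv ⊢
  intro h0
  have h0' : Real.log (fv v (6 : K)) = 0 := h0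
  apply hv
  unfold mu
  rw [h0', neg_zero]

theorem Fs_const (c : ℝ) (hc : c = 0) : (Function.support fun _ : Pr K => c).Finite := by
  subst hc
  simp

/-- the sum of the errors -/
theorem Sm_mu : Sm (K := K) (fun _ => Real.log 1000) (fun v => mu v) =
    Module.finrank ℚ K * c6 := by
  have e1 := Sm_const (K := K) (Real.log 1000)
  have e2 : ∑ᶠ v : Pr K, mu v = Module.finrank ℚ K * Real.log 6 := by
    have h5 := fin_nat (K := K) (n := 6) (by norm_num)
    have h6 : ∑ᶠ v : Pr K, mu v = -∑ᶠ v : Pr K, Real.log (fv v ((6 : ℕ) : K)) := by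
      rw [← finsum_neg_distrib]
      rfl
    rw [h6, h5]
    push_cast
    ring
  unfold Sm at e1 ⊢
  rw [e2]
  rw [finsum_zero, add_zero] at e1
  rw [e1]
  unfold c6
  ring

theorem Fs_cA (a b x : K) : (Function.support fun v : Pr K => cA a b x (fv v)).Finite := by
  refine (ne_sets (one_ne_zero) (one_ne_zero) (jj a b)).subset ?_
  intro v hv
  rw [Function.mem_support] at hv
  by_contra hcon
  simp only [Set.mem_ofPred_eq, not_or, not_not, not_lt] at hcon
  exact hv (cA_zero hcon.2.2)

/-- the corrected height -/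
noncomputable def PsiA (a b x : K) : ℝ := Sa (fun w => Lam a b x w - cA a b x w)

/-- the error of one duplication -/
noncomputable def Er (K : Type) [Field K] [NumberField K] : ℝ :=
  400 * (Module.finrank ℚ K * c6)

theorem Er_nonneg : 0 ≤ Er K := by
  unfold Er
  have := c6_pos
  positivity

theorem four_psi {a b x : K} (ha : a ≠ 0) (hb : b ≠ 0) : 4 * PsiA a b x - Er K =
    Sm (fun w => 4 * (Lam a b x w.1 - cA a b x w.1) - 400 * Real.log 1000)
      (fun v => 4 * (Lam a b x (fv v) - cA a b x (fv v)) - 400 * mu v) := by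
  have hs3 : (Function.support fun v : Pr K => Lam a b x (fv v)).Finite := Fs_Lam ha hb x
  have hs4 := Fs_cA a b x
  rw [Sm_sub (supp_mul 4 (supp_sub hs3 hs4)) (supp_mul 400 Fs_mu), Sm_mul, Sm_mul, Sm_mu]
  rfl

theorem supp_four {a b x : K} (ha : a ≠ 0) (hb : b ≠ 0) : (Function.support fun v : Pr K =>
    4 * (Lam a b x (fv v) - cA a b x (fv v)) - 400 * mu v).Finite :=
  supp_sub (supp_mul 4 (supp_sub (Fs_Lam ha hb x) (Fs_cA a b x))) (supp_mul 400 Fs_mu)

/-- **one duplication** -/
theorem psiA_step {a b x : K} (ha : a ≠ 0) (hb : b ≠ 0) (hD : dl a b ≠ 0) (hG : pG a b x ≠ 0) :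
    4 * PsiA a b x - Er K ≤ PsiA a b (pF a b x / pG a b x) := by
  have hs1 : (Function.support fun v : Pr K => Lam a b (pF a b x / pG a b x) (fv v)).Finite :=
    Fs_Lam ha hb (pF a b x / pG a b x)
  have hs2 : (Function.support fun v : Pr K => Real.log (fv v (pG a b x))).Finite := Fs_log hG
  have hs5 := Fs_cA a b (pF a b x / pG a b x)
  have e1 : PsiA a b (pF a b x / pG a b x) =
      Sm (fun w => (Lam a b (pF a b x / pG a b x) w.1 - cA a b (pF a b x / pG a b x) w.1) +
          Real.log (w.1 (pG a b x)))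
        (fun v => (Lam a b (pF a b x / pG a b x) (fv v) - cA a b (pF a b x / pG a b x) (fv v)) +
            Real.log (fv v (pG a b x))) := by
    rw [Sm_add (supp_sub hs1 hs5) hs2]
    have := Sa_log (K := K) hG
    unfold Sa at this
    rw [this, add_zero]
    rfl
  rw [e1, four_psi ha hb]
  apply Sm_mono (supp_four ha hb) (supp_add (supp_sub hs1 hs5) hs2)
  · intro w
    have h1 := (loc_inf ha hb hD x w).1 hG
    have h2 := ptw (w := w.1) (b := b) (F := pF a b x) ha hG
    unfold Lam at h1 ⊢
    linarith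
  · intro v
    have h1 := (loc_fin ha hb hD x v).1 hG
    have h2 := ptw (w := fv v) (b := b) (F := pF a b x) ha hG
    unfold Lam at h1 ⊢
    linarith

/-- the points of order two -/
theorem psiA_two {a b x : K} (ha : a ≠ 0) (hb : b ≠ 0) (hD : dl a b ≠ 0) (hG : pG a b x = 0) :
    4 * PsiA a b x - Er K ≤ 0 := by
  have hF := F_ne hD hG
  have hs2 : (Function.support fun v : Pr K => Real.log (fv v (pF a b x))).Finite := Fs_log hF
  have e3 := Sa_log (K := K) hF
  rw [four_psi ha hb]
  refine le_trans ?_ e3.le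
  unfold Sa
  have hR : ∀ w : AbsoluteValue K ℝ, max (w (pF a b x)) (sz w a b * w (pG a b x)) =
      w (pF a b x) := by
    intro w
    rw [hG, map_zero, mul_zero, max_eq_left (w.nonneg _)]
  apply Sm_mono (supp_four ha hb) hs2
  · intro w
    have := (loc_inf ha hb hD x w).2
    rwa [hR] at this
  · intro v
    have := (loc_fin ha hb hD x v).2
    rwa [hR] at this

theorem PsiA_le_Lam {a b : K} (ha : a ≠ 0) (hb : b ≠ 0) (x : K) :
    PsiA a b x ≤ Sa (Lam a b x) := by
  have hs3 : (Function.support fun v : Pr K => Lam a b x (fv v)).Finite := Fs_Lam ha hb x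
  unfold PsiA Sa
  apply Sm_mono (supp_sub hs3 (Fs_cA a b x)) hs3
  · intro w
    have := cA_nonneg a b x w.1
    linarith
  · intro v
    have := cA_nonneg a b x (fv v)
    linarith

end Glob

section Chat

variable {K : Type} [Field K] [NumberField K] [DecidableEq K]

theorem psiA_iter {a b : K} (ha : a ≠ 0) (hb : b ≠ 0) (hD : dl a b ≠ 0) {x : ℕ → K}
    (hG : ∀ k, pG a b (x k) ≠ 0) (hx : ∀ k, x (k + 1) = pF a b (x k) / pG a b (x k)) (k : ℕ) :
    (4 : ℝ) ^ k * (PsiA a b (x 0) - Er K / 3) ≤ PsiA a b (x k) - Er K / 3 := by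
  induction k with
  | zero => simp
  | succ k ih =>
    have h1 := psiA_step ha hb hD (hG k)
    rw [← hx k] at h1
    rw [pow_succ]
    linarith

/-- **the corrected height is at most the canonical height, up to a bounded error** -/
theorem psiA_le {a b : K} (ha : a ≠ 0) (hb : b ≠ 0) (hD : dl a b ≠ 0) {x y : K}
    (h : (sw a b).toAffine.Nonsingular x y) :
    PsiA a b x ≤ chat (Affine.Point.some x y h : SPt a b) + Er K / 3 := by
  have hL := Er_nonneg (K := K)
  have hc0 := (chat_spec hD).2.1
  by_cases hfin : ∃ k : ℕ, (2 ^ k : ℕ) • (Affine.Point.some x y h : SPt a b) = 0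
  · obtain ⟨k, hk⟩ := hfin
    have key : ∀ (k : ℕ) (x y : K) (h : (sw a b).toAffine.Nonsingular x y),
        (2 ^ k : ℕ) • (Affine.Point.some x y h : SPt a b) = 0 → PsiA a b x ≤ Er K / 3 := by
      intro k
      induction k with
      | zero =>
        intro x y h h0
        rw [pow_zero, one_smul] at h0
        exact absurd h0 (by intro h9; cases h9)
      | succ k ih =>
        intro x y h h0
        rcases eq_or_ne y 0 with hy | hy
        · have he : y ^ 2 = x ^ 3 + a * x + b := sw_eqn.1 h.1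
          have hG : pG a b x = 0 := by
            unfold pG
            rw [← he, hy]
            ring
          have := psiA_two ha hb hD hG
          linarith
        · obtain ⟨hG, y', h', e⟩ := dup_some h hy
          rw [pow_succ, mul_smul, e] at h0
          have h1 := ih _ _ h' h0
          have h2 := psiA_step ha hb hD hG
          linarith
    have := key k x y h hk
    have := hc0 (Affine.Point.some x y h : SPt a b)
    linarith
  · push Not at hfin
    set P : SPt a b := Affine.Point.some x y h with hP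
    have hex : ∀ k : ℕ, ∃ (x y : K) (h : (sw a b).toAffine.Nonsingular x y),
        (2 ^ k : ℕ) • P = Affine.Point.some x y h := fun k => exists_coord _ (hfin k)
    choose x' y' h' hxy using hex
    have hy : ∀ k, y' k ≠ 0 := by
      intro k h0
      apply hfin (k + 1)
      rw [pow_succ, mul_comm, mul_smul, hxy k]
      exact dup_zero (h' k) h0
    have hG : ∀ k, pG a b (x' k) ≠ 0 := fun k => (dup_some (h' k) (hy k)).1
    have hx : ∀ k, x' (k + 1) = pF a b (x' k) / pG a b (x' k) := by
      intro k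
      obtain ⟨_, y'', h'', e⟩ := dup_some (h' k) (hy k)
      have e1 : (2 ^ (k + 1) : ℕ) • P = Affine.Point.some _ y'' h'' := by
        rw [pow_succ, mul_comm, mul_smul, hxy k, e]
      rw [hxy (k + 1)] at e1
      injection e1
    have hx0 : x' 0 = x := by
      have e1 := hxy 0
      rw [pow_zero, one_smul, hP] at e1
      injection e1 with e2
      exact e2.symm
    set D := Sa (fun w : AbsoluteValue K ℝ => Real.log (max (sz w a b) 1)) with hDD
    set A := PsiA a b x - Er K / 3 with hA
    have hlow : ∀ k : ℕ, A + (Er K / 3 - D) / 4 ^ k ≤ sht ((2 ^ k : ℕ) • P) / 4 ^ k := by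
      intro k
      have h1 := psiA_iter ha hb hD hG hx k
      have h2 := sht_ge ha hb (h' k)
      have h3 := PsiA_le_Lam (a := a) (b := b) ha hb (x' k)
      rw [← hxy k, ← hDD] at h2
      rw [hx0, ← hA] at h1
      have h4 : (0 : ℝ) < 4 ^ k := by positivity
      rw [← sub_nonneg]
      have e : sht ((2 ^ k : ℕ) • P) / 4 ^ k - (A + (Er K / 3 - D) / 4 ^ k) =
          (sht ((2 ^ k : ℕ) • P) - 4 ^ k * A - Er K / 3 + D) / 4 ^ k := by
        field_simp
        ring
      rw [e]
      apply div_nonneg _ h4.le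
      linarith
    have hlim := (chat_spec hD).1 P
    have hlim2 : Tendsto (fun k : ℕ => A + (Er K / 3 - D) / 4 ^ k) atTop (𝓝 (A + 0)) := by
      apply Tendsto.add tendsto_const_nhds
      have h5 : Tendsto (fun k : ℕ => (4 : ℝ) ^ k) atTop atTop :=
        tendsto_pow_atTop_atTop_of_one_lt (by norm_num)
      exact h5.const_div_atTop _
    have hfin' : A + 0 ≤ chat P := le_of_tendsto_of_tendsto' hlim2 hlim hlow
    linarith

end Chat

end Pool.Agent.Q237.LT
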