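import Mathlib
import Pool.Agent.Q237.LT.Det
import Pool.Agent.Q237.LS.Fin

/-!
# The lower bound and the bound for the torsion, for single curves and in extensions
-/

set_option autoImplicit false
set_option linter.unusedSectionVars false

namespace Pool.Agent.Q237.LT

open NumberField IsDedekindDomain Finset Pool.Agent.H691R3 Pool.Agent.W223.AK
open Pool.Agent.TH942 Pool.Agent.TH910.LS Pool.Agent.Y733.LS Pool.Agent.Y733.UD WeierstrassCurve
open Pool.Agent.Q237.LS Pool.Agent.Y733.UD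
open Pool.Agent.W222.UABC (cS_empty)

/-- the constant of the largeness condition -/
noncomputable def c8 : ℝ := c7 + 1 + C4

theorem c8_pos : 0 < c8 := by
  unfold c8
  linarith [c7_pos, C4_nonneg]

/-- **The theorem for a single invariant over a number field of any degree.** -/
theorem LTA_of {L : Type} [Field L] [NumberField L] [DecidableEq L] {j : L} (h0 : j ≠ 0)
    (h1 : j ≠ 1728) {θ : ℝ} (hθ : 0 < θ) (hθ1 : θ ≤ 1) (hf : θ * ht j ≤ fa j)
    (hht : Module.finrank ℚ L * c8 ≤ θ ^ 2 / 144 * ht j) :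
    Pool.Agent.Q237.LS.LT (θ ^ 6 / 290000) (28 / θ ^ 2) j := by
  intro a b hD hj
  have ha : a ≠ 0 := by
    rintro rfl
    apply h0
    rw [← hj]
    unfold jj
    simp
  have hb : b ≠ 0 := by
    rintro rfl
    apply h1
    have h3 := jj_sub a 0 hD
    rw [hj] at h3
    have h4 : j - 1728 = 0 := by rw [h3]; simp
    linear_combination h4
  subst hj
  set j := jj a b with hj
  have hn : (0 : ℝ) < Module.finrank ℚ L := by exact_mod_cast Module.finrank_pos
  set n : ℝ := (Module.finrank ℚ L : ℝ) with hndef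
  have hc7 := c7_pos
  have hC4 := C4_nonneg
  have hht2 : n * c7 ≤ θ ^ 2 / 144 * ht j := by
    refine le_trans ?_ hht
    apply mul_le_mul_of_nonneg_left _ hn.le
    unfold c8
    linarith
  have hθ2 : 0 < θ ^ 2 := by positivity
  have hθ21 : θ ^ 2 ≤ 1 := pow_le_one₀ hθ.le hθ1
  have hhtpos : 0 < ht j := by
    have h3 : 0 < n * c8 := mul_pos hn c8_pos
    have h4 : 0 < θ ^ 2 / 144 * ht j := lt_of_lt_of_le h3 hht
    by_contra hcon
    push Not at hcon
    have : θ ^ 2 / 144 * ht j ≤ 0 := mul_nonpos_of_nonneg_of_nonpos (by positivity) hcon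
    linarith
  have hht3 : n * (1 + C4) ≤ ht j := by
    have h3 : n * (1 + C4) ≤ n * c8 := by
      apply mul_le_mul_of_nonneg_left _ hn.le
      unfold c8
      linarith
    nlinarith
  -- the number of points
  set N : ℕ := ⌈6 / θ ^ 2⌉₊ with hN
  have hN1 : 6 / θ ^ 2 ≤ N := Nat.le_ceil _
  have hN2 : (N : ℝ) < 6 / θ ^ 2 + 1 := Nat.ceil_lt_add_one (by positivity)
  have h6 : 6 ≤ θ ^ 2 * N := by
    rw [div_le_iff₀ hθ2] at hN1
    linarith
  have hN3 : (N : ℝ) * θ ^ 2 ≤ 7 := by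
    have h3 : (N : ℝ) * θ ^ 2 ≤ (6 / θ ^ 2 + 1) * θ ^ 2 :=
      mul_le_mul_of_nonneg_right hN2.le hθ2.le
    have h4 : (6 / θ ^ 2 + 1) * θ ^ 2 = 6 + θ ^ 2 := by field_simp
    linarith
  have hN16 : (6 : ℝ) ≤ N := by nlinarith
  have hNge : 2 ≤ N := by
    have : (2 : ℝ) ≤ N := by linarith
    exact_mod_cast this
  -- the bound for one point
  have key : ∀ (T : Finset (Pr L)), (∀ v ∈ T, GainAt a b v) → ∀ P : SPt a b,
      (∀ m : ℕ, 1 ≤ m → m ≤ 4 * N → m • P ≠ 0) →
      θ ^ 2 / 288 * ht j + (∑ v ∈ T, Real.log (Nv v)) / 4 ≤ 4 * (N : ℝ) ^ 2 * chat P :=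
    fun T hT P hP => mainA ha hb hD hθ hf hht2 N hNge h6 T hT P hP
  have hB4 : ((4 * N : ℕ) : ℝ) ≤ 28 / θ ^ 2 := by
    rw [le_div_iff₀ hθ2]
    push_cast
    linarith
  constructor
  · intro Q hQ
    refine le_trans ?_ hB4
    by_contra hcon
    push Not at hcon
    have hcon' : 4 * N < addOrderOf Q := by exact_mod_cast hcon
    have h3 := key ∅ (by simp) Q (fun m hm1 hm2 h0 => by
      have := addOrderOf_le_of_nsmul_eq_zero (by omega) h0
      omega)
    rw [tors_zero (a := a) (b := b) hD hQ, Finset.sum_empty] at h3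
    have : 0 < θ ^ 2 / 288 * ht j := by positivity
    linarith
  · intro S hS g M hM P hP
    obtain ⟨Q, _, hQ, hQ'⟩ := reduction (a := a) (b := b) hD M hM P hP
    refine le_trans ?_ hQ'
    obtain ⟨T, hT, hTS⟩ := bad_sum ha hb hD S hS
    have hQm : ∀ m : ℕ, 1 ≤ m → m ≤ 4 * N → m • Q ≠ 0 := by
      intro m hm1 _ h0
      exact hQ (isOfFinAddOrder_iff_nsmul_eq_zero.2 ⟨m, hm1, h0⟩)
    have h3 := key T hT Q hQm
    have hT0 : 0 ≤ ∑ v ∈ T, Real.log (Nv v) := Finset.sum_nonneg fun v _ => (log_Nv_pos v).le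
    have hC4' : Real.log 6 + Real.log 1729 = C4 := rfl
    rw [hC4', ← hj, ← hndef] at hTS
    generalize (∑ v ∈ T, Real.log (Nv v)) = sT at h3 hT0 hTS
    generalize (∑ v ∈ S, Real.log (Nv v)) = sS at hTS ⊢
    have h4 : n + ht j + sS ≤ 5 * ht j + sT := by linarith
    have hN0 : (0 : ℝ) < N := by linarith
    have h5 : 0 ≤ 5 * ht j + sT := by positivity
    have hcpos : (0 : ℝ) ≤ θ ^ 6 / 290000 := by positivity
    calc θ ^ 6 / 290000 * (n + ht j + sS) ≤ θ ^ 6 / 290000 * (5 * ht j + sT) :=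
          mul_le_mul_of_nonneg_left h4 hcpos
      _ ≤ (θ ^ 2 / 288 * ht j + sT / 4) / (4 * (N : ℝ) ^ 2) := by
          rw [le_div_iff₀ (by positivity)]
          have h5 : ((N : ℝ) * θ ^ 2) ^ 2 ≤ 7 ^ 2 := pow_le_pow_left₀ (by positivity) hN3 2
          have h6 : θ ^ 6 / 290000 * (5 * ht j + sT) * (4 * (N : ℝ) ^ 2) =
              θ ^ 2 * (5 * ht j + sT) * (4 / 290000) * ((N : ℝ) * θ ^ 2) ^ 2 := by ring
          rw [h6]
          have h7 : θ ^ 2 * (5 * ht j + sT) * (4 / 290000) * ((N : ℝ) * θ ^ 2) ^ 2 ≤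
              θ ^ 2 * (5 * ht j + sT) * (4 / 290000) * 7 ^ 2 :=
            mul_le_mul_of_nonneg_left h5 (by positivity)
          refine h7.trans ?_
          have h8 : θ ^ 2 * sT ≤ 1 * sT := mul_le_mul_of_nonneg_right hθ21 hT0
          have h9 : 0 ≤ θ ^ 2 * ht j := by positivity
          nlinarith
      _ ≤ chat Q := by
          rw [div_le_iff₀ (by positivity)]
          linarith

section Ext

variable {K : Type} [Field K] [NumberField K] {L : Type} [Field L] [NumberField L] [Algebra K L]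

/-- **The theorem for an invariant in `K` and the curves over an extension `L`.** -/
theorem LTA_ext [DecidableEq L] {j : K} (h0 : j ≠ 0) (h1 : j ≠ 1728) {θ κ : ℝ} (hθ : 0 < θ)
    (hθ1 : θ ≤ 1) (hf : (θ + κ) * ht j ≤ fa j)
    (hht : Module.finrank ℚ K * c8 ≤ θ ^ 2 / 144 * ht j)
    (hL : Real.log |(discr L : ℝ)| ≤ Module.finrank K L * (Real.log |(discr K : ℝ)| +
      κ * ht j)) :
    Pool.Agent.Q237.LS.LT (θ ^ 6 / 290000) (28 / θ ^ 2) (algebraMap K L j) := by
  have hm : (0 : ℝ) < Module.finrank K L := by exact_mod_cast Module.finrank_pos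
  have e1 := ht_ext (L := L) j
  have e3 := fa_ext (L := L) j
  refine LTA_of ?_ ?_ hθ hθ1 ?_ ?_
  · rwa [Ne, FaithfulSMul.algebraMap_eq_zero_iff]
  · intro h
    apply h1
    apply (algebraMap K L).injective
    rw [h]
    exact (map_ofNat (algebraMap K L) 1728).symm
  · rw [e1]
    refine le_trans ?_ e3
    have h5 : Module.finrank K L * ((θ + κ) * ht j) ≤ Module.finrank K L * fa j :=
      mul_le_mul_of_nonneg_left hf hm.le
    linarith
  · rw [e1, finrank_mul (K := K)]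
    have h5 := mul_le_mul_of_nonneg_left hht hm.le
    linarith

end Ext

/-- **All extensions with a root discriminant which is not large.** -/
theorem UTA_of {K : Type} [Field K] [NumberField K] {j : K} (h0 : j ≠ 0) (h1 : j ≠ 1728)
    {θ κ : ℝ} (hθ : 0 < θ) (hθ1 : θ ≤ 1) (hf : (θ + κ) * ht j ≤ fa j)
    (hht : Module.finrank ℚ K * (144 * c8 / θ ^ 2) ≤ ht j) :
    UT κ (θ ^ 6 / 290000) (28 / θ ^ 2) j := by
  intro L _ _ _ _ hL
  refine LTA_ext h0 h1 hθ hθ1 hf ?_ hL
  have h5 := mul_le_mul_of_nonneg_left hht (by positivity : (0 : ℝ) ≤ θ ^ 2 / 144)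
  refine le_trans (le_of_eq ?_) h5
  field_simp

/-- the radical of the denominator is the truncated counting function of the poles -/
theorem rl_eq_fa {K : Type} [Field K] [NumberField K] {j : K} {P : Fin 3 → Idl K}
    (hP : IsP ∅ j P) : rl (P 1) = fa j := by
  have hval : ∀ v, max (fv v j) 1 = (Nv v) ^ (P 1 v) := by
    intro v
    have h1 := hP.val 1 v (by simp)
    rw [L_one, map_one] at h1
    have h2 := Nv_pos v
    rw [zpow_neg, zpow_natCast] at h1
    have h3 : (Nv v) ^ (P 1 v) ≠ 0 := by positivity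
    field_simp at h1
    exact h1.symm
  unfold rl fa
  congr 1
  ext v
  rw [Finsupp.mem_support_iff, mem_wa]
  have h1 := hval v
  have hN := Nv_one_lt v
  constructor
  · intro h
    have h2 : 1 < Nv v ^ (P 1 v) := one_lt_pow₀ hN h
    rw [← h1] at h2
    rcases lt_max_iff.1 h2 with h3 | h3
    · exact h3
    · exact absurd h3 (lt_irrefl _)
  · intro h h0
    rw [h0, pow_zero] at h1
    have := le_max_left (fv v j) 1
    linarith

/-- the invariants with few poles -/
theorem fa_count {ε : ℝ} (hε : 0 < ε) : ∃ A : ℝ, 0 ≤ A ∧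
    ∀ (K : Type) [Field K] [NumberField K] (ρ X : ℝ) (E : Finset K), 0 ≤ ρ →
      (∀ j ∈ E, Pt j ∧ ht j ≤ X ∧ fa j ≤ ρ * ht j) →
        (E.card : ℝ) ≤ Real.exp (Module.finrank ℚ K * A + (1 + ρ + ε) * X) := by
  classical
  obtain ⟨A, hA, h⟩ := class_card hε
  have l2 : 0 ≤ Real.log 2 := Real.log_nonneg (by norm_num)
  refine ⟨A + Real.log 2, by positivity, ?_⟩
  intro K _ _ ρ X E hρ hE
  set n := Module.finrank ℚ K with hn
  have hP : ∀ j : K, ∃ P : Fin 3 → Idl K, Pt j → IsP ∅ j P := by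
    intro j
    by_cases hj : Pt j
    · obtain ⟨P, hP⟩ := exists_isP ∅ hj
      exact ⟨P, fun _ => hP⟩
    · exact ⟨fun _ => 0, fun h => absurd h hj⟩
  choose P hP using hP
  have h1 := h K X ((1 + ρ) * X + n * Real.log 2) E P 0 1 (by decide) ?_
  · refine h1.trans (le_of_eq ?_)
    congr 1
    ring
  · intro j hj
    obtain ⟨h2, h3, h4⟩ := hE j hj
    refine ⟨h2, h3, hP j h2, ?_⟩
    have h5 := rl_eq_fa (hP j h2)
    have h7 := len_le h2 (hP j h2) 0
    have h8 := rl_le_len (P j 0)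
    rw [cS_empty] at h7
    have h9 : ρ * ht j ≤ ρ * X := mul_le_mul_of_nonneg_left h3 hρ
    rw [h5]
    linarith

/-- **the exceptional invariants** -/
theorem exc_countA {θ κ ε : ℝ} (hθ : 0 < θ) (hθ1 : θ ≤ 1) (hκ0 : 0 ≤ κ) (hε : 0 < ε) :
    ∃ A : ℝ, 0 ≤ A ∧
    ∀ (K : Type) [Field K] [NumberField K] (X : ℝ) (E : Finset K), 0 ≤ X →
      (∀ j ∈ E, j ≠ 0 ∧ j ≠ 1728 ∧ ht j ≤ X ∧
        ¬ UT κ (θ ^ 6 / 290000) (28 / θ ^ 2) j) →
        (E.card : ℝ) ≤ Real.exp (Module.finrank ℚ K * A +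
          (1 + κ + θ + ε) * X) := by
  classical
  obtain ⟨A1, hA1, hall⟩ := all_card (ε := 1) one_pos
  obtain ⟨A2, hA2, hspc⟩ := fa_count hε
  set L0 : ℝ := 144 * c8 / θ ^ 2 with hL0
  have hL00 : 0 ≤ L0 := by
    have := c8_pos
    positivity
  have hl3 : 0 ≤ Real.log 3 := Real.log_nonneg (by norm_num)
  refine ⟨Real.log 3 + A1 + 3 * L0 + A2, by positivity, ?_⟩
  intro K _ _ X E hX hE
  set n := Module.finrank ℚ K with hn
  have hn1 : (1 : ℝ) ≤ n := by exact_mod_cast Module.finrank_pos (R := ℚ) (M := K)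
  have hn0 : (0 : ℝ) ≤ n := by linarith
  set E2 := E.filter fun j => j ≠ -1 ∧ ht j ≤ n * L0 with hE2
  set E3 := E.filter fun j => j ≠ -1 ∧ fa j ≤ (θ + κ) * ht j with hE3
  have hsub : E ⊆ (E2 ∪ E3) ∪ {-1} := by
    intro j hj
    rw [Finset.mem_union, Finset.mem_singleton, Finset.mem_union]
    by_cases h1 : j = -1
    · exact Or.inr h1
    · left
      obtain ⟨h2, h3, h4, h5⟩ := hE j hj
      by_contra hcon
      push Not at hcon
      obtain ⟨c1, c2⟩ := hcon
      rw [hE2, Finset.mem_filter] at c1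
      rw [hE3, Finset.mem_filter] at c2
      push Not at c1 c2
      exact h5 (UTA_of h2 h3 hθ hθ1 (c2 hj h1).le (c1 hj h1).le)
  have hPt : ∀ j ∈ E, j ≠ -1 → Pt j := by
    intro j hj h1
    refine ⟨(hE j hj).1, fun h2 => h1 ?_⟩
    linear_combination h2
  have b2 : (E2.card : ℝ) ≤ Real.exp (n * (A1 + 3 * L0)) := by
    refine (hall K (n * L0) E2 ?_).trans (le_of_eq (by congr 1; ring))
    intro j hj
    rw [hE2, Finset.mem_filter] at hj
    exact ⟨hPt j hj.1 hj.2.1, hj.2.2⟩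
  have b3 : (E3.card : ℝ) ≤ Real.exp (n * A2 + (1 + (θ + κ) + ε) * X) := by
    refine hspc K (θ + κ) X E3 (by linarith) ?_
    intro j hj
    rw [hE3, Finset.mem_filter] at hj
    exact ⟨hPt j hj.1 hj.2.1, (hE j hj.1).2.2.1, hj.2.2⟩
  have hcard : (E.card : ℝ) ≤ E2.card + E3.card + 1 := by
    have h1 := Finset.card_le_card hsub
    have h2 := Finset.card_union_le (E2 ∪ E3) ({-1} : Finset K)
    have h3 := Finset.card_union_le E2 E3
    rw [Finset.card_singleton] at h2
    exact_mod_cast (by omega : E.card ≤ E2.card + E3.card + 1)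
  have hcoef : 0 ≤ 1 + κ + θ + ε := by linarith
  set M0 : ℝ := n * (A1 + 3 * L0 + A2) + (1 + κ + θ + ε) * X with hM0
  have m2 : Real.exp (n * (A1 + 3 * L0)) ≤ Real.exp M0 := by
    apply Real.exp_le_exp.2
    have h1 : 0 ≤ (1 + κ + θ + ε) * X := mul_nonneg hcoef hX
    have h2 : 0 ≤ n * A2 := by positivity
    rw [hM0]
    nlinarith
  have m3 : Real.exp (n * A2 + (1 + (θ + κ) + ε) * X) ≤ Real.exp M0 := by
    apply Real.exp_le_exp.2
    have h2 : 0 ≤ n * (A1 + 3 * L0) := by positivity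
    rw [hM0]
    nlinarith
  have m1 : 1 ≤ Real.exp M0 := by
    apply Real.one_le_exp
    have h1 : 0 ≤ (1 + κ + θ + ε) * X := mul_nonneg hcoef hX
    rw [hM0]
    positivity
  have hfin : (E.card : ℝ) ≤ 3 * Real.exp M0 := by linarith
  refine hfin.trans ?_
  have h4 : (3 : ℝ) ≤ Real.exp (n * Real.log 3) := by
    calc (3 : ℝ) = Real.exp (Real.log 3) := (Real.exp_log (by norm_num)).symm
      _ ≤ Real.exp (n * Real.log 3) := Real.exp_le_exp.2 (by nlinarith)
  calc 3 * Real.exp M0 ≤ Real.exp (n * Real.log 3) * Real.exp M0 :=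
        mul_le_mul_of_nonneg_right h4 (Real.exp_pos _).le
    _ = _ := by
        rw [← Real.exp_add, hM0]
        congr 1
        ring

end Pool.Agent.Q237.LT
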