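import Mathlib
import Pool.Agent.Q237.LT.AddExt
import Pool.Agent.Q237.LS.Tot

/-!
# The theorems with the additive places
-/

set_option autoImplicit false
set_option linter.unusedSectionVars false

namespace Pool.Agent.Q237.LT

open NumberField IsDedekindDomain Finset Pool.Agent.H691R3 Pool.Agent.W223.AK
open Pool.Agent.TH942 Pool.Agent.TH910.LS Pool.Agent.Y733.LS Pool.Agent.Y733.UD WeierstrassCurve
open Pool.Agent.Q237.LS

/-- **The theorem for a single invariant over a number field of any degree.** -/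
theorem LTU_of {L : Type} [Field L] [NumberField L] [DecidableEq L] {j : L} (h0 : j ≠ 0)
    (h1 : j ≠ 1728) {θ : ℝ} (hθ : 0 < θ) (hθ1 : θ ≤ 1) (hf : θ * ht j ≤ fa j + fu j)
    (hht : Module.finrank ℚ L * c8 ≤ θ ^ 2 / 144 * ht j) :
    Pool.Agent.Q237.LS.LT (θ ^ 6 / 290000) (28 / θ ^ 2) j := by
  intro a b hD hj
  have ha : a ≠ 0 := by
    rintro rfl
    apply h0
    rw [← hj]
    unfold jj
    simp
  have hb : b ≠ 0 := by
    rintro rfl
    apply h1
    have h3 := jj_sub a 0 hD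
    rw [hj] at h3
    have h4 : j - 1728 = 0 := by rw [h3]; simp
    linear_combination h4
  subst hj
  have hU : ∀ v ∈ wu (jj a b), AddJ (jj a b) v := fun v hv => of_mem_wu hv
  set j := jj a b with hj
  have hn : (0 : ℝ) < Module.finrank ℚ L := by exact_mod_cast Module.finrank_pos
  set n : ℝ := (Module.finrank ℚ L : ℝ) with hndef
  have hc7 := c7_pos
  have hC4 := C4_nonneg
  have hht2 : n * c7 ≤ θ ^ 2 / 144 * ht j := by
    refine le_trans ?_ hht
    apply mul_le_mul_of_nonneg_left _ hn.le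
    unfold c8
    linarith
  have hθ2 : 0 < θ ^ 2 := by positivity
  have hθ21 : θ ^ 2 ≤ 1 := pow_le_one₀ hθ.le hθ1
  have hhtpos : 0 < ht j := by
    have h3 : 0 < n * c8 := mul_pos hn c8_pos
    have h4 : 0 < θ ^ 2 / 144 * ht j := lt_of_lt_of_le h3 hht
    by_contra hcon
    push Not at hcon
    have : θ ^ 2 / 144 * ht j ≤ 0 := mul_nonpos_of_nonneg_of_nonpos (by positivity) hcon
    linarith
  have hht3 : n * (1 + C4) ≤ ht j := by
    have h3 : n * (1 + C4) ≤ n * c8 := by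
      apply mul_le_mul_of_nonneg_left _ hn.le
      unfold c8
      linarith
    nlinarith
  -- the number of points
  set N : ℕ := ⌈6 / θ ^ 2⌉₊ with hN
  have hN1 : 6 / θ ^ 2 ≤ N := Nat.le_ceil _
  have hN2 : (N : ℝ) < 6 / θ ^ 2 + 1 := Nat.ceil_lt_add_one (by positivity)
  have h6 : 6 ≤ θ ^ 2 * N := by
    rw [div_le_iff₀ hθ2] at hN1
    linarith
  have hN3 : (N : ℝ) * θ ^ 2 ≤ 7 := by
    have h3 : (N : ℝ) * θ ^ 2 ≤ (6 / θ ^ 2 + 1) * θ ^ 2 :=
      mul_le_mul_of_nonneg_right hN2.le hθ2.le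
    have h4 : (6 / θ ^ 2 + 1) * θ ^ 2 = 6 + θ ^ 2 := by field_simp
    linarith
  have hN16 : (6 : ℝ) ≤ N := by nlinarith
  have hNge : 6 ≤ N := by exact_mod_cast hN16
  -- the bound for one point
  have key : ∀ (T : Finset (Pr L)), (∀ v ∈ T, GainAt a b v) → ∀ P : SPt a b,
      (∀ m : ℕ, 1 ≤ m → m ≤ 4 * N → m • P ≠ 0) →
      θ ^ 2 / 288 * ht j + (∑ v ∈ T, Real.log (Nv v)) / 4 ≤ 4 * (N : ℝ) ^ 2 * chat P :=
    fun T hT P hP => mainU ha hb hD hθ hθ1 (wu j) hU hf hht2 N hNge h6 T hT P hP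
  have hB4 : ((4 * N : ℕ) : ℝ) ≤ 28 / θ ^ 2 := by
    rw [le_div_iff₀ hθ2]
    push_cast
    linarith
  constructor
  · intro Q hQ
    refine le_trans ?_ hB4
    by_contra hcon
    push Not at hcon
    have hcon' : 4 * N < addOrderOf Q := by exact_mod_cast hcon
    have h3 := key ∅ (by simp) Q (fun m hm1 hm2 h0 => by
      have := addOrderOf_le_of_nsmul_eq_zero (by omega) h0
      omega)
    rw [tors_zero (a := a) (b := b) hD hQ, Finset.sum_empty] at h3
    have : 0 < θ ^ 2 / 288 * ht j := by positivity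
    linarith
  · intro S hS g M hM P hP
    obtain ⟨Q, _, hQ, hQ'⟩ := reduction (a := a) (b := b) hD M hM P hP
    refine le_trans ?_ hQ'
    obtain ⟨T, hT, hTS⟩ := bad_sum ha hb hD S hS
    have hQm : ∀ m : ℕ, 1 ≤ m → m ≤ 4 * N → m • Q ≠ 0 := by
      intro m hm1 _ h0
      exact hQ (isOfFinAddOrder_iff_nsmul_eq_zero.2 ⟨m, hm1, h0⟩)
    have h3 := key T hT Q hQm
    have hT0 : 0 ≤ ∑ v ∈ T, Real.log (Nv v) := Finset.sum_nonneg fun v _ => (log_Nv_pos v).le
    have hC4' : Real.log 6 + Real.log 1729 = C4 := rfl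
    rw [hC4', ← hj, ← hndef] at hTS
    generalize (∑ v ∈ T, Real.log (Nv v)) = sT at h3 hT0 hTS
    generalize (∑ v ∈ S, Real.log (Nv v)) = sS at hTS ⊢
    have h4 : n + ht j + sS ≤ 5 * ht j + sT := by linarith
    have hN0 : (0 : ℝ) < N := by linarith
    have h5 : 0 ≤ 5 * ht j + sT := by positivity
    have hcpos : (0 : ℝ) ≤ θ ^ 6 / 290000 := by positivity
    calc θ ^ 6 / 290000 * (n + ht j + sS) ≤ θ ^ 6 / 290000 * (5 * ht j + sT) :=
          mul_le_mul_of_nonneg_left h4 hcpos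
      _ ≤ (θ ^ 2 / 288 * ht j + sT / 4) / (4 * (N : ℝ) ^ 2) := by
          rw [le_div_iff₀ (by positivity)]
          have h5 : ((N : ℝ) * θ ^ 2) ^ 2 ≤ 7 ^ 2 := pow_le_pow_left₀ (by positivity) hN3 2
          have h6 : θ ^ 6 / 290000 * (5 * ht j + sT) * (4 * (N : ℝ) ^ 2) =
              θ ^ 2 * (5 * ht j + sT) * (4 / 290000) * ((N : ℝ) * θ ^ 2) ^ 2 := by ring
          rw [h6]
          have h7 : θ ^ 2 * (5 * ht j + sT) * (4 / 290000) * ((N : ℝ) * θ ^ 2) ^ 2 ≤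
              θ ^ 2 * (5 * ht j + sT) * (4 / 290000) * 7 ^ 2 :=
            mul_le_mul_of_nonneg_left h5 (by positivity)
          refine h7.trans ?_
          have h8 : θ ^ 2 * sT ≤ 1 * sT := mul_le_mul_of_nonneg_right hθ21 hT0
          have h9 : 0 ≤ θ ^ 2 * ht j := by positivity
          nlinarith
      _ ≤ chat Q := by
          rw [div_le_iff₀ (by positivity)]
          linarith

section Ext

variable {K : Type} [Field K] [NumberField K] {L : Type} [Field L] [NumberField L] [Algebra K L]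

/-- **The theorem for an invariant in `K` and the curves over an extension `L`.** -/
theorem LTU_ext [DecidableEq L] {j : K} (h0 : j ≠ 0) (h1 : j ≠ 1728) {θ κ : ℝ} (hθ : 0 < θ)
    (hθ1 : θ ≤ 1) (hf : (θ + κ) * ht j ≤ fa j + fu j / 2)
    (hht : Module.finrank ℚ K * c8 ≤ θ ^ 2 / 144 * ht j)
    (hL : Real.log |(discr L : ℝ)| ≤ Module.finrank K L * (Real.log |(discr K : ℝ)| +
      κ * ht j)) :
    Pool.Agent.Q237.LS.LT (θ ^ 6 / 290000) (28 / θ ^ 2) (algebraMap K L j) := by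
  have hm : (0 : ℝ) < Module.finrank K L := by exact_mod_cast Module.finrank_pos
  have e1 := ht_ext (L := L) j
  have e3 := f_ext (L := L) h0 h1
  refine LTU_of ?_ ?_ hθ hθ1 ?_ ?_
  · rwa [Ne, FaithfulSMul.algebraMap_eq_zero_iff]
  · intro h
    apply h1
    apply (algebraMap K L).injective
    rw [h]
    exact (map_ofNat (algebraMap K L) 1728).symm
  · rw [e1]
    refine le_trans ?_ e3
    have h5 : Module.finrank K L * ((θ + κ) * ht j) ≤ Module.finrank K L * (fa j + fu j / 2) :=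
      mul_le_mul_of_nonneg_left hf hm.le
    linarith
  · rw [e1, finrank_mul (K := K)]
    have h5 := mul_le_mul_of_nonneg_left hht hm.le
    linarith

end Ext

/-- **All extensions with a root discriminant which is not large.** -/
theorem UTU_of {K : Type} [Field K] [NumberField K] {j : K} (h0 : j ≠ 0) (h1 : j ≠ 1728)
    {θ κ : ℝ} (hθ : 0 < θ) (hθ1 : θ ≤ 1) (hf : (θ + κ) * ht j ≤ fa j + fu j / 2)
    (hht : Module.finrank ℚ K * (144 * c8 / θ ^ 2) ≤ ht j) :
    UT κ (θ ^ 6 / 290000) (28 / θ ^ 2) j := by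
  intro L _ _ _ _ hL
  refine LTU_ext h0 h1 hθ hθ1 hf ?_ hL
  have h5 := mul_le_mul_of_nonneg_left hht (by positivity : (0 : ℝ) ≤ θ ^ 2 / 144)
  refine le_trans (le_of_eq ?_) h5
  field_simp

/-- **the exceptional invariants** -/
theorem exc_countU {θ κ ε : ℝ} (hθ : 0 < θ) (hθ1 : θ ≤ 1) (hκ0 : 0 ≤ κ) (hε : 0 < ε) :
    ∃ A : ℝ, 0 ≤ A ∧
    ∀ (K : Type) [Field K] [NumberField K] (X : ℝ) (E : Finset K), 0 ≤ X →
      (∀ j ∈ E, j ≠ 0 ∧ j ≠ 1728 ∧ ht j ≤ X ∧
        ¬ UT κ (θ ^ 6 / 290000) (28 / θ ^ 2) j) →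
        (E.card : ℝ) ≤ Real.exp (Module.finrank ℚ K * A +
          (1 / 3 + 4 / 3 * (θ + κ) + ε) * X) := by
  classical
  obtain ⟨A1, hA1, hall⟩ := all_card (ε := 1) one_pos
  obtain ⟨A2, hA2, hspc⟩ := f_count hε
  set L0 : ℝ := 144 * c8 / θ ^ 2 with hL0
  have hL00 : 0 ≤ L0 := by
    have := c8_pos
    positivity
  have hl3 : 0 ≤ Real.log 3 := Real.log_nonneg (by norm_num)
  refine ⟨Real.log 3 + A1 + 3 * L0 + A2, by positivity, ?_⟩
  intro K _ _ X E hX hE
  set n := Module.finrank ℚ K with hn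
  have hn1 : (1 : ℝ) ≤ n := by exact_mod_cast Module.finrank_pos (R := ℚ) (M := K)
  have hn0 : (0 : ℝ) ≤ n := by linarith
  set E2 := E.filter fun j => j ≠ -1 ∧ ht j ≤ n * L0 with hE2
  set E3 := E.filter fun j => j ≠ -1 ∧ fa j + fu j / 2 ≤ (θ + κ) * ht j with hE3
  have hsub : E ⊆ (E2 ∪ E3) ∪ {-1} := by
    intro j hj
    rw [Finset.mem_union, Finset.mem_singleton, Finset.mem_union]
    by_cases h1 : j = -1
    · exact Or.inr h1
    · left
      obtain ⟨h2, h3, h4, h5⟩ := hE j hj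
      by_contra hcon
      push Not at hcon
      obtain ⟨c1, c2⟩ := hcon
      rw [hE2, Finset.mem_filter] at c1
      rw [hE3, Finset.mem_filter] at c2
      push Not at c1 c2
      exact h5 (UTU_of h2 h3 hθ hθ1 (c2 hj h1).le (c1 hj h1).le)
  have hPt : ∀ j ∈ E, j ≠ -1 → Pt j := by
    intro j hj h1
    refine ⟨(hE j hj).1, fun h2 => h1 ?_⟩
    linear_combination h2
  have b2 : (E2.card : ℝ) ≤ Real.exp (n * (A1 + 3 * L0)) := by
    refine (hall K (n * L0) E2 ?_).trans (le_of_eq (by congr 1; ring))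
    intro j hj
    rw [hE2, Finset.mem_filter] at hj
    exact ⟨hPt j hj.1 hj.2.1, hj.2.2⟩
  have b3 : (E3.card : ℝ) ≤ Real.exp (n * A2 + (1 / 3 + 4 / 3 * (θ + κ) + ε) * X) := by
    refine hspc K (θ + κ) X E3 (by linarith) ?_
    intro j hj
    rw [hE3, Finset.mem_filter] at hj
    exact ⟨hPt j hj.1 hj.2.1, (hE j hj.1).2.1, (hE j hj.1).2.2.1, hj.2.2⟩
  have hcard : (E.card : ℝ) ≤ E2.card + E3.card + 1 := by
    have h1 := Finset.card_le_card hsub
    have h2 := Finset.card_union_le (E2 ∪ E3) ({-1} : Finset K)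
    have h3 := Finset.card_union_le E2 E3
    rw [Finset.card_singleton] at h2
    exact_mod_cast (by omega : E.card ≤ E2.card + E3.card + 1)
  have hcoef : 0 ≤ 1 / 3 + 4 / 3 * (θ + κ) + ε := by positivity
  set M0 : ℝ := n * (A1 + 3 * L0 + A2) + (1 / 3 + 4 / 3 * (θ + κ) + ε) * X with hM0
  have m2 : Real.exp (n * (A1 + 3 * L0)) ≤ Real.exp M0 := by
    apply Real.exp_le_exp.2
    have h1 : 0 ≤ (1 / 3 + 4 / 3 * (θ + κ) + ε) * X := mul_nonneg hcoef hX
    have h2 : 0 ≤ n * A2 := by positivity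
    rw [hM0]
    nlinarith
  have m3 : Real.exp (n * A2 + (1 / 3 + 4 / 3 * (θ + κ) + ε) * X) ≤ Real.exp M0 := by
    apply Real.exp_le_exp.2
    have h2 : 0 ≤ n * (A1 + 3 * L0) := by positivity
    rw [hM0]
    nlinarith
  have m1 : 1 ≤ Real.exp M0 := by
    apply Real.one_le_exp
    have h1 : 0 ≤ (1 / 3 + 4 / 3 * (θ + κ) + ε) * X := mul_nonneg hcoef hX
    rw [hM0]
    positivity
  have hfin : (E.card : ℝ) ≤ 3 * Real.exp M0 := by linarith
  refine hfin.trans ?_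
  have h4 : (3 : ℝ) ≤ Real.exp (n * Real.log 3) := by
    calc (3 : ℝ) = Real.exp (Real.log 3) := (Real.exp_log (by norm_num)).symm
      _ ≤ Real.exp (n * Real.log 3) := Real.exp_le_exp.2 (by nlinarith)
  calc 3 * Real.exp M0 ≤ Real.exp (n * Real.log 3) * Real.exp M0 :=
        mul_le_mul_of_nonneg_right h4 (Real.exp_pos _).le
    _ = _ := by
        rw [← Real.exp_add, hM0]
        congr 1
        ring

open Classical in
/-- the property `UT` for all classical instances -/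
theorem log_countU {θ κ ε : ℝ} (hθ : 0 < θ) (hθ1 : θ ≤ 1) (hκ0 : 0 ≤ κ) (hε : 0 < ε) (R : Prp)
    (hR : ∀ (K : Type) [Field K] [NumberField K] (j : K),
      UT κ (θ ^ 6 / 290000) (28 / θ ^ 2) j → R K j) :
    ∃ A1 : ℝ, 0 ≤ A1 ∧ ∀ (K : Type) [Field K] [NumberField K] (B : ℝ), 1 ≤ B →
      ((ExcS R K B).ncard : ℝ) ≤ Real.exp (Module.finrank ℚ K *
        (A1 + (1 / 3 + 4 / 3 * (θ + κ) + ε) * Real.log B)) := by
  obtain ⟨A, hA, h⟩ := exc_countU hθ hθ1 hκ0 hε
  refine ⟨A, hA, ?_⟩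
  intro K _ _ B hB
  refine (ncard_le fun E hE => ?_).2
  refine (h K (Module.finrank ℚ K * Real.log B) E
    (mul_nonneg n_pos.le (Real.log_nonneg hB)) ?_).trans (le_of_eq (by congr 1; ring))
  intro j hj
  obtain ⟨⟨h1, h2, h3⟩, h4⟩ := hE (Finset.mem_coe.2 hj)
  rw [ht_log] at h3
  exact ⟨h1, h2, h3, fun hcon => h4 (hR K j hcon)⟩

/-- **from the logarithmic count to the count** -/
theorem countsU (R : Prp) {β ε A1 : ℝ} (hε : 0 < ε)
    (h1 : ∀ (K : Type) [Field K] [NumberField K] (B : ℝ), 1 ≤ B → ((ExcS R K B).ncard : ℝ) ≤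
      Real.exp (Module.finrank ℚ K * (A1 + (β + ε / 2) * Real.log B))) :
    ∃ C : ℝ, 0 < C ∧ ∀ (K : Type) [Field K] [NumberField K] (B : ℝ), 1 ≤ B →
      (InvS K B).Finite ∧
      ((ExcS R K B).ncard : ℝ) ≤ (C * B ^ (β + ε)) ^ Module.finrank ℚ K := by
  refine ⟨Real.exp A1, Real.exp_pos _, ?_⟩
  intro K _ _ B hB
  have hB0 : 0 < B := by linarith
  have hlB : 0 ≤ Real.log B := Real.log_nonneg hB
  have hn := n_pos (K := K)
  refine ⟨fin_InvS B, ?_⟩
  refine (h1 K B hB).trans ?_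
  rw [pow_form2 hB0]
  apply Real.exp_le_exp.2
  apply mul_le_mul_of_nonneg_left _ hn.le
  nlinarith

end Pool.Agent.Q237.LT
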